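import Pool.Agent.X158.Sep8Ord
import Pool.Agent.X158.Sep8Dat

set_option autoImplicit false

namespace Pool.Agent.Results.MP_a0a64f_co.EightPoints

open Pool.Agent.X158.Sep8

/-- Euclidean 3-space -/
abbrev Space := EuclideanSpace ℝ (Fin 3)

/-- The plane `{x | ⟪n, x⟫ = c}` (used with `n ≠ 0`). -/
def plane (n : Space) (c : ℝ) : Set Space := {x | inner ℝ n x = c}

/-- No four points of `P` lie on a common plane. -/
def GeneralPosition (P : Set Space) : Prop :=
  ∀ (n : Space) (c : ℝ), n ≠ 0 → ∀ Q : Set Space, Q ⊆ P → Q.ncard = 4 → ¬ Q ⊆ plane n c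

/-- The connected components of the complement of the union of the three planes. -/
def compartments (n : Fin 3 → Space) (c : Fin 3 → ℝ) : Set (Set Space) :=
  {K | ∃ x ∈ (⋃ i, plane (n i) (c i))ᶜ, K = connectedComponentIn (⋃ i, plane (n i) (c i))ᶜ x}

/-- The three planes separate `P`: no point of `P` lies on a plane, there are exactly eight
compartments and each contains exactly one point of `P`; moreover each of the eight sign patterns
is the pattern of exactly one point of `P`. -/
def Separates (n : Fin 3 → Space) (c : Fin 3 → ℝ) (P : Set Space) : Prop :=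
  (∀ i, n i ≠ 0) ∧ (∀ x ∈ P, ∀ i, x ∉ plane (n i) (c i)) ∧
  (compartments n c).ncard = 8 ∧ (∀ K ∈ compartments n c, ∃! x, x ∈ P ∧ x ∈ K) ∧
  ∀ s : Fin 3 → Bool, ∃! x, x ∈ P ∧
    ∀ i, (s i = true → c i < inner ℝ (n i) x) ∧ (s i = false → inner ℝ (n i) x < c i)

/-- region of a sign pattern -/
def Reg (n : Fin 3 → Space) (c : Fin 3 → ℝ) (s : Fin 3 → Bool) : Set Space :=
  {x | ∀ i, (s i = true → c i < inner ℝ (n i) x) ∧ (s i = false → inner ℝ (n i) x < c i)}

lemma Reg_convex (n : Fin 3 → Space) (c : Fin 3 → ℝ) (s : Fin 3 → Bool) : Convex ℝ (Reg n c s) := by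
  have h : Reg n c s = ⋂ i, {x | (s i = true → c i < inner ℝ (n i) x) ∧
      (s i = false → inner ℝ (n i) x < c i)} := by
    ext x; simp [Reg]
  rw [h]
  apply convex_iInter
  intro i
  have hl : IsLinearMap ℝ (fun x : Space => inner ℝ (n i) x) :=
    ⟨fun x y => inner_add_right _ _ _, fun a x => by rw [inner_smul_right]; rfl⟩
  cases hs : s i
  · simpa using convex_halfSpace_lt hl (c i)
  · simpa using convex_halfSpace_gt hl (c i)

lemma Reg_sub (n : Fin 3 → Space) (c : Fin 3 → ℝ) (s : Fin 3 → Bool) :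
    Reg n c s ⊆ (⋃ i, plane (n i) (c i))ᶜ := by
  intro x hx
  simp only [Set.mem_compl_iff, Set.mem_iUnion, not_exists]
  intro i hi
  have h := hx i
  have hi' : inner ℝ (n i) x = c i := hi
  cases hs : s i
  · have := h.2 hs; rw [hi'] at this; exact lt_irrefl _ this
  · have := h.1 hs; rw [hi'] at this; exact lt_irrefl _ this

lemma comp_eq (n : Fin 3 → Space) (c : Fin 3 → ℝ) (s : Fin 3 → Bool) {x : Space}
    (hx : x ∈ Reg n c s) : connectedComponentIn (⋃ i, plane (n i) (c i))ᶜ x = Reg n c s := by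
  apply Set.Subset.antisymm
  · intro y hy i
    have hpre : IsPreconnected (connectedComponentIn (⋃ i, plane (n i) (c i))ᶜ x) :=
      isPreconnected_connectedComponentIn
    have hsub := connectedComponentIn_subset (⋃ i, plane (n i) (c i))ᶜ x
    have hxc : x ∈ connectedComponentIn (⋃ i, plane (n i) (c i))ᶜ x :=
      mem_connectedComponentIn (Reg_sub n c s hx)
    have hcont : Continuous (fun z : Space => (inner ℝ (n i) z : ℝ)) := by fun_prop
    have ho1 : IsOpen {z : Space | c i < inner ℝ (n i) z} := isOpen_lt continuous_const hcont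
    have ho2 : IsOpen {z : Space | inner ℝ (n i) z < c i} := isOpen_lt hcont continuous_const
    have hdisj : Disjoint {z : Space | c i < inner ℝ (n i) z} {z : Space | inner ℝ (n i) z < c i} := by
      rw [Set.disjoint_left]
      intro z h1 h2
      have h1' : c i < inner ℝ (n i) z := h1
      have h2' : inner ℝ (n i) z < c i := h2
      exact lt_asymm h1' h2'
    have hcov : connectedComponentIn (⋃ i, plane (n i) (c i))ᶜ x ⊆
        {z : Space | c i < inner ℝ (n i) z} ∪ {z : Space | inner ℝ (n i) z < c i} := by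
      intro z hz
      have h1 := hsub hz
      simp only [Set.mem_compl_iff, Set.mem_iUnion, not_exists] at h1
      rcases lt_trichotomy (inner ℝ (n i) z : ℝ) (c i) with h | h | h
      · exact Or.inr h
      · exact absurd h (h1 i)
      · exact Or.inl h
    cases hs : s i
    · refine ⟨fun h => by simp at h, fun _ => ?_⟩
      have hne : (connectedComponentIn (⋃ i, plane (n i) (c i))ᶜ x ∩
          {z : Space | inner ℝ (n i) z < c i}).Nonempty := ⟨x, hxc, (hx i).2 hs⟩
      exact hpre.subset_left_of_subset_union ho2 ho1 hdisj.symm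
        (by rw [Set.union_comm]; exact hcov) hne hy
    · refine ⟨fun _ => ?_, fun h => by simp at h⟩
      have hne : (connectedComponentIn (⋃ i, plane (n i) (c i))ᶜ x ∩
          {z : Space | c i < inner ℝ (n i) z}).Nonempty := ⟨x, hxc, (hx i).1 hs⟩
      exact hpre.subset_left_of_subset_union ho1 ho2 hdisj hcov hne hy
  · exact (Reg_convex n c s).isPreconnected.subset_connectedComponentIn hx (Reg_sub n c s)

lemma comps_eq (n : Fin 3 → Space) (c : Fin 3 → ℝ) (h : ∀ s, (Reg n c s).Nonempty) :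
    compartments n c = Set.range (Reg n c) := by
  ext K
  constructor
  · rintro ⟨x, hx, rfl⟩
    classical
    refine ⟨fun i => decide (c i < inner ℝ (n i) x), ?_⟩
    symm
    apply comp_eq
    intro i
    simp only [Set.mem_compl_iff, Set.mem_iUnion, not_exists] at hx
    have hi : (inner ℝ (n i) x : ℝ) ≠ c i := hx i
    refine ⟨fun h => by simpa using h, fun h => ?_⟩
    have h' : ¬ (c i < inner ℝ (n i) x) := by simpa using h
    exact lt_of_le_of_ne (not_lt.1 h') hi
  · rintro ⟨s, rfl⟩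
    obtain ⟨x, hx⟩ := h s
    exact ⟨x, Reg_sub n c s hx, (comp_eq n c s hx).symm⟩

lemma Reg_inj (n : Fin 3 → Space) (c : Fin 3 → ℝ) (h : ∀ s, (Reg n c s).Nonempty) :
    Function.Injective (Reg n c) := by
  intro s t hst
  obtain ⟨x, hx⟩ := h s
  have hx' : x ∈ Reg n c t := by rw [← hst]; exact hx
  funext i
  cases hs : s i <;> cases ht : t i
  · rfl
  · exact absurd ((hx i).2 hs) (not_lt.2 ((hx' i).1 ht).le)
  · exact absurd ((hx i).1 hs) (not_lt.2 ((hx' i).2 ht).le)
  · rfl

/-- From a bijective pattern map to separation. -/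
lemma separates_of (P : Set Space) (p : ℕ → Space) (hP : P = p '' {i | i < 8})
    (n : Fin 3 → Space) (c : Fin 3 → ℝ) (M : Fin 3 → ℕ)
    (h : ∀ k, ∀ i < 8, (tb (M k) i = true → c k < inner ℝ (n k) (p i)) ∧
      (tb (M k) i = false → inner ℝ (n k) (p i) < c k))
    (hs : ∀ s : Fin 3 → Bool, ∃ i < 8, ∀ k, tb (M k) i = s k)
    (hu : ∀ i < 8, ∀ j < 8, (∀ k, tb (M k) i = tb (M k) j) → i = j) : Separates n c P := by
  have hreg : ∀ i < 8, p i ∈ Reg n c (fun k => tb (M k) i) := fun i hi k => h k i hi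
  have hpat : ∀ i < 8, ∀ s, p i ∈ Reg n c s → (fun k => tb (M k) i) = s := by
    intro i hi s hsi
    funext k
    have h1 := h k i hi
    have h2 := hsi k
    cases hs : s k <;> cases ht : tb (M k) i
    · rfl
    · exact absurd (h1.1 ht) (not_lt.2 (h2.2 hs).le)
    · exact absurd (h2.1 hs) (not_lt.2 (h1.2 ht).le)
    · rfl
  have hex : ∀ s, ∃! x, x ∈ P ∧ x ∈ Reg n c s := by
    intro s
    obtain ⟨i, hi, his⟩ := hs s
    have e : (fun k => tb (M k) i) = s := funext his
    refine ⟨p i, ⟨by rw [hP]; exact ⟨i, hi, rfl⟩, by rw [← e]; exact hreg i hi⟩, ?_⟩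
    rintro y ⟨hy, hyr⟩
    rw [hP] at hy
    obtain ⟨j, hj, rfl⟩ := hy
    have e2 := hpat j hj s hyr
    rw [← e] at e2
    have : j = i := hu j hj i hi (fun k => congrFun e2 k)
    rw [this]
  have hne : ∀ s, (Reg n c s).Nonempty := fun s => (hex s).exists.imp fun x hx => hx.2
  have hn : ∀ k, n k ≠ 0 := by
    intro k hk
    obtain ⟨x, hx⟩ := hne (fun _ => true)
    obtain ⟨y, hy⟩ := hne (fun _ => false)
    have h1 := (hx k).1 rfl
    have h2 := (hy k).2 rfl
    rw [hk, inner_zero_left] at h1 h2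
    linarith
  refine ⟨hn, ?_, ?_, ?_, ?_⟩
  · intro x hx k hk
    rw [hP] at hx
    obtain ⟨i, hi, rfl⟩ := hx
    have := Reg_sub n c _ (hreg i hi)
    simp only [Set.mem_compl_iff, Set.mem_iUnion, not_exists] at this
    exact this k hk
  · rw [comps_eq n c hne, ← Set.image_univ, Set.ncard_image_of_injective _ (Reg_inj n c hne)]
    rw [Set.ncard_univ]
    simp
  · rw [comps_eq n c hne]
    rintro K ⟨s, rfl⟩
    exact hex s
  · intro s
    exact hex s

lemma code_surj {A B C : ℕ} (h : okT A B C = true) (v : ℕ) (hv : v < 8) :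
    ∃ i < 8, code A B C i = v := by
  unfold okT at h
  rw [Nat.beq_eq] at h
  have h1 : (255 : ℕ).testBit v = true := by
    interval_cases v <;> rfl
  rw [← h] at h1
  simp only [Nat.testBit_or, Nat.one_shiftLeft, Nat.testBit_two_pow, Bool.or_eq_true,
    decide_eq_true_eq] at h1
  rcases h1 with ((((((h1 | h1) | h1) | h1) | h1) | h1) | h1) | h1
  · exact ⟨0, by norm_num, h1⟩
  · exact ⟨1, by norm_num, h1⟩
  · exact ⟨2, by norm_num, h1⟩
  · exact ⟨3, by norm_num, h1⟩
  · exact ⟨4, by norm_num, h1⟩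
  · exact ⟨5, by norm_num, h1⟩
  · exact ⟨6, by norm_num, h1⟩
  · exact ⟨7, by norm_num, h1⟩

lemma tb_val (m i : ℕ) : tb m i = true ↔ (m >>> i) % 2 = 1 := by
  unfold tb; rw [Nat.beq_eq]

lemma pat_surj {A B C : ℕ} (h : okT A B C = true) (s : Fin 3 → Bool) :
    ∃ i < 8, ∀ k, tb ((![A, B, C] : Fin 3 → ℕ) k) i = s k := by
  obtain ⟨i, hi, hc⟩ := code_surj h (4 * (s 0).toNat + 2 * (s 1).toNat + (s 2).toNat) (by
    have a0 := (s 0).toNat_le
    have a1 := (s 1).toNat_le
    have a2 := (s 2).toNat_le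
    omega)
  refine ⟨i, hi, ?_⟩
  unfold code at hc
  have m0 := Nat.mod_lt (A >>> i) (show 0 < 2 by norm_num)
  have m1 := Nat.mod_lt (B >>> i) (show 0 < 2 by norm_num)
  have m2 := Nat.mod_lt (C >>> i) (show 0 < 2 by norm_num)
  have a0 := (s 0).toNat_le
  have a1 := (s 1).toNat_le
  have a2 := (s 2).toNat_le
  have key : ∀ (m : ℕ) (b : Bool), (m >>> i) % 2 = b.toNat → tb m i = b := by
    intro m b hb
    cases b
    · rw [← Bool.not_eq_true, tb_val]
      simp at hb; omega
    · rw [tb_val]; simpa using hb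
  intro k
  fin_cases k
  · exact key A (s 0) (by omega)
  · exact key B (s 1) (by omega)
  · exact key C (s 2) (by omega)

lemma pat_inj {A B C : ℕ} (h : okT A B C = true) :
    ∀ i < 8, ∀ j < 8, (∀ k, tb ((![A, B, C] : Fin 3 → ℕ) k) i = tb ((![A, B, C] : Fin 3 → ℕ) k) j) →
      i = j := by
  let F : Fin 8 → (Fin 3 → Bool) := fun i k => tb ((![A, B, C] : Fin 3 → ℕ) k) i
  have hsur : Function.Surjective F := by
    intro s
    obtain ⟨i, hi, hc⟩ := pat_surj h s
    exact ⟨⟨i, hi⟩, funext hc⟩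
  have hbij : Function.Bijective F :=
    (Fintype.bijective_iff_surjective_and_card F).2 ⟨hsur, by simp⟩
  intro i hi j hj hk
  have : (⟨i, hi⟩ : Fin 8) = ⟨j, hj⟩ := hbij.1 (funext hk)
  simpa using this

lemma DD_ne {P : Set Space} (hP : GeneralPosition P) {a b c d : Space} (ha : a ∈ P) (hb : b ∈ P)
    (hc : c ∈ P) (hd : d ∈ P) (hab : a ≠ b) (hac : a ≠ c) (had : a ≠ d) (hbc : b ≠ c)
    (hbd : b ≠ d) (hcd : c ≠ d) : DD a b c d ≠ 0 := by
  intro h0
  let A : Matrix (Fin 3) (Fin 3) ℝ := ![fun i => (b - a) i, fun i => (c - a) i, fun i => (d - a) i]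
  have hA : A.det = 0 := by
    rw [Matrix.det_fin_three, ← h0]
    simp only [A, DD, det3, Matrix.cons_val_zero, Matrix.cons_val_one, Matrix.cons_val]
    ring
  obtain ⟨v, hv, hAv⟩ := Matrix.exists_mulVec_eq_zero_iff.2 hA
  have hw : (WithLp.toLp 2 v : Space) ≠ 0 := by
    intro h
    apply hv
    funext i
    have := congrArg (fun z : Space => z i) h
    simpa using this
  have hin : ∀ z : Space, (inner ℝ (WithLp.toLp 2 v : Space) z : ℝ) = v 0 * z 0 + v 1 * z 1 + v 2 * z 2 := by
    intro z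
    rw [PiLp.inner_apply, Fin.sum_univ_three]
    simp [mul_comm]
  have e0 := congrFun hAv 0
  have e1 := congrFun hAv 1
  have e2 := congrFun hAv 2
  simp only [A, Matrix.mulVec, dotProduct, Fin.sum_univ_three, Matrix.cons_val_zero,
    Matrix.cons_val_one, Matrix.cons_val, Pi.zero_apply, PiLp.sub_apply] at e0 e1 e2
  apply hP (WithLp.toLp 2 v) (inner ℝ (WithLp.toLp 2 v : Space) a) hw {a, b, c, d}
  · intro z hz
    simp only [Set.mem_insert_iff, Set.mem_singleton_iff] at hz
    rcases hz with rfl | rfl | rfl | rfl <;> assumption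
  · rw [Set.ncard_insert_of_notMem (by simp [hab, hac, had]),
      Set.ncard_insert_of_notMem (by simp [hbc, hbd]), Set.ncard_pair hcd]
  · intro z hz
    simp only [Set.mem_insert_iff, Set.mem_singleton_iff] at hz
    show inner ℝ (WithLp.toLp 2 v : Space) z = inner ℝ (WithLp.toLp 2 v : Space) a
    rw [hin, hin]
    rcases hz with rfl | rfl | rfl | rfl
    · rfl
    · linarith
    · linarith
    · linarith

/-- Every set of 8 points in general position in 3-space is separated by three planes. -/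
theorem result (P : Set Space) (h8 : P.ncard = 8) (hP : GeneralPosition P) :
    ∃ (n : Fin 3 → Space) (c : Fin 3 → ℝ), Separates n c P := by
  by_contra hcon
  have hfin : P.Finite := Set.finite_of_ncard_ne_zero (by rw [h8]; norm_num)
  have : Finite P := hfin
  let e : P ≃ Fin 8 := Finite.equivFinOfCardEq h8
  let q : Fin 8 → Space := fun i => (e.symm i : Space)
  have hqP : ∀ i, q i ∈ P := fun i => (e.symm i).2
  have hqinj : Function.Injective q := fun i j h => e.symm.injective (Subtype.ext h)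
  have hqsur : ∀ x ∈ P, ∃ i, q i = x := fun x hx => ⟨e ⟨x, hx⟩, by simp [q]⟩
  have hq : ∀ i j k l : Fin 8, i ≠ j → i ≠ k → i ≠ l → j ≠ k → j ≠ l → k ≠ l →
      DD (q i) (q j) (q k) (q l) ≠ 0 := by
    intro i j k l h1 h2 h3 h4 h5 h6
    exact DD_ne hP (hqP i) (hqP j) (hqP k) (hqP l) (hqinj.ne h1) (hqinj.ne h2) (hqinj.ne h3)
      (hqinj.ne h4) (hqinj.ne h5) (hqinj.ne h6)
  obtain ⟨σ, hσ⟩ := exists_order q hqinj hq
  let p : ℕ → Space := fun n => q (σ ⟨n % 8, Nat.mod_lt _ (by norm_num)⟩)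
  have hpi : ∀ (n : ℕ) (hn : n < 8), p n = q (σ ⟨n, hn⟩) := by
    intro n hn
    simp only [p, Nat.mod_eq_of_lt hn]
  have hp : GP p := by
    intro a b c d ⟨ha, hb, hc, hd, h1, h2, h3, h4, h5, h6⟩
    unfold D
    rw [hpi a ha, hpi b hb, hpi c hc, hpi d hd]
    apply hq <;> apply σ.injective.ne <;> simpa
  have hord : ∀ i j, 2 ≤ i → i < j → j < 8 → 0 < D p 0 1 i j := by
    intro i j h1 h2 h3
    unfold D
    rw [hpi 0 (by norm_num), hpi 1 (by norm_num), hpi i (by omega), hpi j h3]
    exact hσ ⟨i, by omega⟩ ⟨j, h3⟩ h1 h2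
  have himg : P = p '' {i | i < 8} := by
    ext x
    constructor
    · intro hx
      obtain ⟨i, rfl⟩ := hqsur x hx
      refine ⟨(σ.symm i : ℕ), (σ.symm i).2, ?_⟩
      rw [hpi _ (σ.symm i).2]
      simp
    · rintro ⟨i, -, rfl⟩
      exact hqP _
  have hN : NoT p := by
    intro A B C hT hA hB hC
    obtain ⟨fA, cA, hA⟩ := hA
    obtain ⟨fB, cB, hB⟩ := hB
    obtain ⟨fC, cC, hC⟩ := hC
    apply hcon
    let N : (Space →ₗ[ℝ] ℝ) → Space := fun f =>
      (InnerProductSpace.toDual ℝ Space).symm (LinearMap.toContinuousLinearMap f)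
    have hNf : ∀ (f : Space →ₗ[ℝ] ℝ) (x : Space), (inner ℝ (N f) x : ℝ) = f x := by
      intro f x
      simp [N, InnerProductSpace.toDual_symm_apply]
    refine ⟨![N fA, N fB, N fC], ![cA, cB, cC], separates_of P p himg _ _ ![A, B, C] ?_
      (pat_surj hT) (pat_inj hT)⟩
    intro k i hi
    fin_cases k
    · have := hA i hi; simpa [hNf] using this
    · have := hB i hi; simpa [hNf] using this
    · have := hC i hi; simpa [hNf] using this
  exact run_sound hp hN 1000 m0 dat (Inv_m0 hp hord) run_ok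

end Pool.Agent.Results.MP_a0a64f_co.EightPoints
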